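import Pool.Agent.D0H89.OF.Stm3
import Pool.Agent.D0H52.OF.Rad

/-!
# Project OF, module DEC
-/

set_option autoImplicit false

open Polynomial Matrix

namespace Pool.Agent.D0H2.OF

open Pool.Agent.D0H89.OF Pool.Agent.D0H52.OF

section

variable {ι K : Type} [Fintype ι] [DecidableEq ι] [Field K]

/-- the form `e ↦ tr (n e)` on `𝔄` is given by an element of `𝔄` -/
theorem exists_d (𝔄 : Subalgebra K (Matrix ι ι K))
    (hnd : ∀ a ∈ 𝔄, a ≠ 0 → ∃ e ∈ 𝔄, (a * e).trace ≠ 0) (n : Matrix ι ι K) :
    ∃ d ∈ 𝔄, ∀ e ∈ 𝔄, (d * e).trace = (n * e).trace := by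
  let F : 𝔄 →ₗ[K] Module.Dual K 𝔄 :=
    LinearMap.mk₂ K (fun d e : 𝔄 => ((d : Matrix ι ι K) * (e : Matrix ι ι K)).trace)
      (fun a b c => by simp [add_mul]) (fun r a b => by simp)
      (fun a b c => by simp [mul_add]) (fun r a b => by simp)
  have hF : Function.Injective F := by
    rw [injective_iff_map_eq_zero]
    rintro ⟨a, ha⟩ h0
    by_contra hne
    have hne' : a ≠ 0 := fun h => hne (Subtype.ext h)
    obtain ⟨e, he, hae⟩ := hnd a ha hne'
    exact hae (LinearMap.congr_fun h0 ⟨e, he⟩)
  have hS : Function.Surjective F :=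
    (LinearMap.injective_iff_surjective_of_finrank_eq_finrank
      (Subspace.dual_finrank_eq (K := K) (V := 𝔄)).symm).1 hF
  let φ : Module.Dual K 𝔄 :=
    { toFun := fun e => (n * (e : Matrix ι ι K)).trace
      map_add' := fun a b => by simp [mul_add]
      map_smul' := fun r a => by simp }
  obtain ⟨⟨d, hd⟩, h1⟩ := hS φ
  refine ⟨d, hd, fun e he => ?_⟩
  exact LinearMap.congr_fun h1 ⟨e, he⟩

/-- `tr (b f(b)) = 0` for all polynomials `f` if this holds for powers -/
theorem trace_aeval_zero (b : Matrix ι ι K) (h : ∀ k : ℕ, (b * b ^ k).trace = 0) (f : K[X]) :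
    (b * aeval b f).trace = 0 := by
  induction f using Polynomial.induction_on' with
  | add p q hp hq => rw [map_add, mul_add, Matrix.trace_add, hp, hq, add_zero]
  | monomial k a =>
    rw [aeval_monomial, ← Algebra.smul_def, mul_smul_comm, Matrix.trace_smul, h, smul_zero]

/-- a matrix is nilpotent if the traces of its powers vanish (characteristic zero) -/
theorem nil_of_trace [IsAlgClosed K] [CharZero K] (b : Matrix ι ι K)
    (h : ∀ k : ℕ, (b * b ^ k).trace = 0) : IsNilpotent b := by
  classical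
  have h0 : ∀ x ∈ eig b, x = 0 := by
    intro x0 hx0
    by_contra hne
    let f : K[X] := ∏ y ∈ (eig b).erase x0, (X - C y)
    have h1 : (aeval b (X * f)).trace = 0 := by
      rw [map_mul, aeval_X]
      exact trace_aeval_zero b h f
    rw [trace_eq, Finset.sum_eq_single x0] at h1
    · have h2 : (mul b x0 : K) ≠ 0 := Nat.cast_ne_zero.2 (mul_pos b x0 hx0).ne'
      have h3 : (X * f).eval x0 ≠ 0 := by
        rw [eval_mul, eval_X]
        refine mul_ne_zero hne ?_
        rw [eval_prod]
        refine Finset.prod_ne_zero_iff.2 fun y hy => ?_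
        rw [eval_sub, eval_X, eval_C]
        exact sub_ne_zero.2 (Finset.ne_of_mem_erase hy).symm
      exact (mul_ne_zero h2 h3) h1
    · intro y hy hyx
      have h4 : f.eval y = 0 := by
        rw [eval_prod]
        refine Finset.prod_eq_zero (Finset.mem_erase.2 ⟨hyx, hy⟩) ?_
        rw [eval_sub, eval_X, eval_C, sub_self]
      rw [eval_mul, h4, mul_zero, mul_zero]
    · intro hx
      exact absurd hx0 hx
  have h1 : rad b ∣ (X : K[X]) := by
    unfold rad
    refine Finset.prod_dvd_of_coprime ?_ ?_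
    · intro x _ y _ hxy
      exact Polynomial.pairwise_coprime_X_sub_C Function.injective_id hxy
    · intro x hx
      rw [h0 x hx, C_0, sub_zero]
  have h2 := isNilpotent_of_dvd b X h1
  rwa [aeval_X] at h2

end

theorem t_DEC : S_DEC := by
  intro ι K _ _ _ _ _ 𝔄 hnd n hn hnA
  obtain ⟨d, hd, hde⟩ := exists_d 𝔄 hnd n
  obtain ⟨b, hb⟩ : ∃ b, b = n - d := ⟨_, rfl⟩
  have hbt : ∀ e ∈ 𝔄, (b * e).trace = 0 := by
    intro e he
    rw [hb, sub_mul, Matrix.trace_sub, hde e he, sub_self]
  have hcomm : ∀ e ∈ 𝔄, b * e = e * b := by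
    intro e he
    have h1 : b * e - e * b ∈ 𝔄 := by
      have h2 : b * e - e * b = (n * e - e * n) - (d * e - e * d) := by
        rw [hb]; noncomm_ring
      rw [h2]
      exact sub_mem (hnA e he) (sub_mem (mul_mem hd he) (mul_mem he hd))
    by_contra hne
    obtain ⟨e', he', h3⟩ := hnd _ h1 (sub_ne_zero.2 hne)
    apply h3
    have h4 : ((b * e - e * b) * e').trace = (b * (e * e' - e' * e)).trace := by
      rw [sub_mul, mul_sub, Matrix.trace_sub, Matrix.trace_sub, mul_assoc b e e']
      congr 1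
      rw [Matrix.trace_mul_cycle, Matrix.trace_mul_comm, ← mul_assoc]
    rw [h4]
    exact hbt _ (sub_mem (mul_mem he he') (mul_mem he' he))
  have hbd : Commute b d := hcomm d hd
  have hnbd : n = b + d := by rw [hb]; abel
  have hnb : Commute n b := by rw [hnbd]; exact (Commute.refl b).add_left hbd.symm
  have hnd' : Commute n d := by rw [hnbd]; exact hbd.add_left (Commute.refl d)
  have hpow : ∀ k : ℕ, ∃ c : Matrix ι ι K, Commute n c ∧ Commute b c ∧
      b ^ k = (-d) ^ k + n * c := by
    intro k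
    induction k with
    | zero => exact ⟨0, Commute.zero_right _, Commute.zero_right _, by simp⟩
    | succ k ih =>
      obtain ⟨c, h1, h2, h3⟩ := ih
      refine ⟨(-d) ^ k + c * b, ?_, ?_, ?_⟩
      · exact (hnd'.neg_right.pow_right k).add_right (h1.mul_right hnb)
      · exact (hbd.neg_right.pow_right k).add_right (h2.mul_right (Commute.refl b))
      · have h4 : (-d) ^ k * n = n * (-d) ^ k := (hnd'.neg_right.pow_right k).symm
        have h5 : b = n + -d := by rw [hb, sub_eq_add_neg]
        calc b ^ (k + 1) = b ^ k * b := pow_succ _ _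
          _ = (-d) ^ k * b + n * c * b := by rw [h3, add_mul]
          _ = (-d) ^ k * (n + -d) + n * c * b := by rw [← h5]
          _ = (-d) ^ (k + 1) + n * ((-d) ^ k + c * b) := by
            rw [mul_add, h4, ← pow_succ, mul_add, mul_assoc n c b]
            abel
  have hnil : IsNilpotent b := by
    refine nil_of_trace b fun k => ?_
    obtain ⟨c, h1, h2, h3⟩ := hpow k
    rw [h3, mul_add, Matrix.trace_add, hbt _ (pow_mem (neg_mem hd) k), zero_add]
    have h4 : b * (n * c) = n * (b * c) := by
      rw [← mul_assoc, ← hnb.eq, mul_assoc]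
    rw [h4]
    have h5 : IsNilpotent (n * (b * c)) := (hnb.mul_right h1).isNilpotent_mul_right hn
    exact (Matrix.isNilpotent_trace_of_isNilpotent h5).eq_zero
  refine ⟨b, d, hnbd, hd, hcomm, hnil, ?_⟩
  have h6 : d = n - b := by rw [hb]; abel
  rw [h6]
  exact hnb.isNilpotent_sub hn hnil

end Pool.Agent.D0H2.OF
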